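import Pool.Agent.K3h43.GEN.Stm

/-! MP_ec2393_nt, brick G1: elementary facts on the substitution `v₀ ↦ v₀ + v₁`. -/

set_option autoImplicit false

namespace Pool.Agent.K3h36.GEN.GOne

open Pool.Agent.K3h43.GEN Pool.Agent.K3h43.DSL MvPolynomial

theorem sb_X0 (a b c : R) : sb a b c (X 0) = a := by simp [sb]
theorem sb_X1 (a b c : R) : sb a b c (X 1) = b := by simp [sb]
theorem sb_X2 (a b c : R) : sb a b c (X 2) = c := by simp [sb]
theorem sb_C (a b c : R) (r : ℚ) : sb a b c (C r) = C r := by
  rw [sb, MvPolynomial.aeval_C]; rfl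

theorem t_Div01 : Div01 := by
  intro Q
  induction Q using MvPolynomial.induction_on with
  | C a => exact ⟨0, by rw [sb_C, sub_self, mul_zero]⟩
  | add p q hp hq =>
    obtain ⟨P, hP⟩ := hp
    obtain ⟨P', hP'⟩ := hq
    exact ⟨P + P', by rw [map_add]; linear_combination hP + hP'⟩
  | mul_X p i hp =>
    obtain ⟨P, hP⟩ := hp
    fin_cases i
    · refine ⟨p + P * (X 0 + X 1), ?_⟩
      change sb _ _ _ (p * X 0) - p * X 0 = _
      rw [map_mul, sb_X0]
      linear_combination (X 0 + X 1) * hP
    · refine ⟨P * X 1, ?_⟩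
      change sb _ _ _ (p * X 1) - p * X 1 = _
      rw [map_mul, sb_X1]
      linear_combination (X 1) * hP
    · refine ⟨P * X 2, ?_⟩
      change sb _ _ _ (p * X 2) - p * X 2 = _
      rw [map_mul, sb_X2]
      linear_combination (X 2) * hP

theorem surj_aux (a : ℕ) : ∀ M : R, sb (X 0 + X 1) (X 1) (X 2) M = M →
    ∃ Q : R, sb (X 0 + X 1) (X 1) (X 2) Q - Q = X 1 * (X 0 ^ a * M) := by
  induction a using Nat.strong_induction_on with
  | _ a ih =>
    intro M hM
    have h1 : ∀ m : ℕ, ∃ Q : R, m < a → sb (X 0 + X 1) (X 1) (X 2) Q - Q =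
        X 1 * (X 0 ^ m * (X 1 ^ (a - m) * M)) := by
      intro m
      by_cases hm : m < a
      · obtain ⟨Q, hQ⟩ := ih m hm (X 1 ^ (a - m) * M) (by rw [map_mul, map_pow, sb_X1, hM])
        exact ⟨Q, fun _ => hQ⟩
      · exact ⟨0, fun h => absurd h hm⟩
    choose Q hQ using h1
    have ha : (C (((a : ℚ) + 1)⁻¹) : R) * (C ((a : ℚ) + 1)) = 1 := by
      rw [← C_mul, inv_mul_cancel₀ (by positivity), C_1]
    refine ⟨C (((a : ℚ) + 1)⁻¹) * (X 0 ^ (a + 1) * M -
      ∑ m ∈ Finset.range a, C ((a + 1).choose m : ℚ) * Q m), ?_⟩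
    have h2 : (X 0 + X 1 : R) ^ (a + 1) = X 0 ^ (a + 1) + C ((a : ℚ) + 1) * (X 0 ^ a * X 1) +
        ∑ m ∈ Finset.range a, C ((a + 1).choose m : ℚ) * (X 0 ^ m * X 1 ^ (a - m) * X 1) := by
      rw [add_pow, Finset.sum_range_succ, Finset.sum_range_succ]
      have h3 : ∀ m ∈ Finset.range a, (X 0 : R) ^ m * X 1 ^ (a + 1 - m) * ((a + 1).choose m : R) =
          C ((a + 1).choose m : ℚ) * (X 0 ^ m * X 1 ^ (a - m) * X 1) := by
        intro m hm
        rw [Finset.mem_range] at hm
        have : a + 1 - m = (a - m) + 1 := by omega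
        rw [this, pow_succ, map_natCast]
        ring
      rw [Finset.sum_congr rfl h3]
      have h4 : (a + 1).choose a = a + 1 := by
        rw [Nat.choose_succ_self_right]
      rw [h4, Nat.sub_self, pow_zero, Nat.choose_self]
      have h5 : a + 1 - a = 1 := by omega
      rw [h5, C_add, C_1, map_natCast]
      push_cast
      ring
    rw [map_mul, sb_C, map_sub, map_mul, map_pow, sb_X0, hM, map_sum, h2]
    have h6 : ∀ m ∈ Finset.range a, sb (X 0 + X 1) (X 1) (X 2) (C ((a + 1).choose m : ℚ) * Q m) =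
        C ((a + 1).choose m : ℚ) * Q m + C ((a + 1).choose m : ℚ) *
          (X 0 ^ m * X 1 ^ (a - m) * X 1) * M := by
      intro m hm
      rw [map_mul, sb_C]
      have := hQ m (Finset.mem_range.1 hm)
      linear_combination C ((a + 1).choose m : ℚ) * this
    rw [Finset.sum_congr rfl h6, Finset.sum_add_distrib, ← Finset.sum_mul]
    linear_combination (X 0 ^ a * X 1 * M) * ha

theorem t_Surj01 : Surj01 := by
  intro P
  induction P using MvPolynomial.induction_on' with
  | monomial u a =>
    have h : (monomial u a : R) = X 0 ^ (u 0) * (C a * X 1 ^ (u 1) * X 2 ^ (u 2)) := by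
      rw [monomial_eq, Finsupp.prod_fintype _ _ (fun i => by simp), Fin.prod_univ_three]
      ring
    rw [h]
    exact surj_aux _ _ (by rw [map_mul, map_mul, sb_C, map_pow, map_pow, sb_X1, sb_X2])
  | add p q hp hq =>
    obtain ⟨Q, hQ⟩ := hp
    obtain ⟨Q', hQ'⟩ := hq
    exact ⟨Q + Q', by rw [map_add]; linear_combination hQ + hQ'⟩

theorem eval_sb (a b c : R) (v : Fin 3 → ℚ) (Q : R) :
    eval v (sb a b c Q) = eval ![eval v a, eval v b, eval v c] Q := by
  have : (eval v : R →+* ℚ).comp (sb a b c : R →+* R) =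
      (eval ![eval v a, eval v b, eval v c] : R →+* ℚ) := by
    apply MvPolynomial.ringHom_ext
    · intro r
      simp
    · intro i
      fin_cases i <;> simp [sb]
  exact RingHom.congr_fun this Q

theorem t_Ker01 : Ker01 := by
  intro Q hQ
  have key : ∀ v : Fin 3 → ℚ, v 1 ≠ 0 → eval ![0, v 1, v 2] Q = eval v Q := by
    intro v hv
    let q : Polynomial ℚ := aeval ![Polynomial.X, Polynomial.C (v 1), Polynomial.C (v 2)] Q
    have hq : ∀ s : ℚ, q.eval s = eval ![s, v 1, v 2] Q := by
      intro s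
      have : (Polynomial.evalRingHom s).comp
          (aeval ![Polynomial.X, Polynomial.C (v 1), Polynomial.C (v 2)] :
            R →ₐ[ℚ] Polynomial ℚ).toRingHom = (eval ![s, v 1, v 2] : R →+* ℚ) := by
        apply MvPolynomial.ringHom_ext
        · intro r
          simp
        · intro i
          fin_cases i <;> simp
      exact RingHom.congr_fun this Q
    have hstep : ∀ s : ℚ, q.eval (s + v 1) = q.eval s := by
      intro s
      rw [hq, hq]
      have := congrArg (eval ![s, v 1, v 2]) hQ
      rw [eval_sb] at this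
      simpa using this
    have hn : ∀ n : ℕ, q.eval ((n : ℚ) * v 1) = q.eval 0 := by
      intro n
      induction n with
      | zero => simp
      | succ n ih =>
        rw [← ih, ← hstep ((n : ℚ) * v 1)]
        congr 1
        push_cast
        ring
    have hc : q = Polynomial.C (q.eval 0) := by
      apply Polynomial.eq_of_infinite_eval_eq
      refine Set.infinite_of_injective_forall_mem (f := fun n : ℕ => (n : ℚ) * v 1) ?_ ?_
      · intro m n h
        have := mul_right_cancel₀ hv h
        exact_mod_cast this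
      · intro n
        simp [hn]
    have hv3 : v = ![v 0, v 1, v 2] := by
      ext i
      fin_cases i <;> rfl
    have h0 : q.eval (v 0) = q.eval 0 := by
      rw [hc]; simp
    rw [hq, hq] at h0
    rw [← h0, ← hv3]
  have h1 : X 1 * (sb 0 (X 1) (X 2) Q - Q) = 0 := by
    apply MvPolynomial.funext
    intro v
    rw [map_mul, map_sub, eval_sb, map_zero, eval_X, eval_X]
    by_cases hv : v 1 = 0
    · rw [hv, zero_mul]
    · rw [key v hv, sub_self, mul_zero]
  rcases mul_eq_zero.1 h1 with h | h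
  · exact absurd h (X_ne_zero 1)
  · exact sub_eq_zero.1 h

theorem t_Div12 : Div12 := by
  intro P Q h
  have h1 : (X 2 : R) ∣ X 1 * P := ⟨Q, h⟩
  rcases (MvPolynomial.X_prime (i := (2 : Fin 3)) (R := ℚ)).dvd_or_dvd h1 with h2 | h2
  · exfalso
    obtain ⟨S, hS⟩ := h2
    have := congrArg (eval ![(0 : ℚ), 1, 0]) hS
    simp at this
  · exact h2
end Pool.Agent.K3h36.GEN.GOne
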