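import Pool.Agent.K3h43.GEN.Stm

/-! MP_ec2393_nt, brick G2: the second layer is spanned by the symbols of double brackets. The
proof applies the alternating sum over the dihedral group of order twelve. -/

set_option autoImplicit false

namespace Pool.Agent.K3h36.GEN.GTwo

open Pool.Agent.K3h43.GEN MvPolynomial

theorem bb_X0 (a b : B2) : bb a b (X 0) = a := by simp [bb]
theorem bb_X1 (a b : B2) : bb a b (X 1) = b := by simp [bb]

theorem bb_comp (a b c d c' d' : B2) (h1 : bb a b c = c') (h2 : bb a b d = d') (Q : B2) :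
    bb a b (bb c d Q) = bb c' d' Q := by
  have : (bb a b).comp (bb c d) = bb c' d' := by
    apply MvPolynomial.algHom_ext
    intro i
    fin_cases i
    · change bb a b (bb c d (X 0)) = bb c' d' (X 0)
      rw [bb_X0, bb_X0, h1]
    · change bb a b (bb c d (X 1)) = bb c' d' (X 1)
      rw [bb_X1, bb_X1, h2]
  exact AlgHom.congr_fun this Q

/-- the alternating sum over the dihedral group of order twelve -/
noncomputable def Alt (Q : B2) : B2 :=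
  (bb (X 0) (X 1) Q + bb (-X 1) (X 0 + X 1) Q + bb (-(X 0 + X 1)) (X 0) Q + bb (-X 0) (-X 1) Q +
    bb (X 1) (-(X 0 + X 1)) Q + bb (X 0 + X 1) (-X 0) Q) -
  (bb (X 1) (X 0) Q + bb (X 0 + X 1) (-X 1) Q + bb (X 0) (-(X 0 + X 1)) Q + bb (-X 1) (-X 0) Q +
    bb (-(X 0 + X 1)) (X 1) Q + bb (-X 0) (X 0 + X 1) Q)

theorem Alt_add (P Q : B2) : Alt (P + Q) = Alt P + Alt Q := by
  simp only [Alt, map_add]; ring

theorem Alt_smul (c : ℚ) (Q : B2) : Alt (c • Q) = c • Alt Q := by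
  simp only [Alt, map_smul, smul_add, smul_sub]

theorem Alt_zero : Alt 0 = 0 := by simp [Alt]

theorem Alt_sum {ι : Type} (s : Finset ι) (f : ι → B2) : Alt (∑ i ∈ s, f i) = ∑ i ∈ s, Alt (f i) := by
  classical
  induction s using Finset.induction_on with
  | empty => simp [Alt_zero]
  | insert a s ha ih => rw [Finset.sum_insert ha, Finset.sum_insert ha, Alt_add, ih]

theorem Alt_s (Q : B2) : Alt (bb (X 1) (X 0) Q) = -Alt Q := by
  unfold Alt
  rw [bb_comp (X 0) (X 1) _ _ (X 1) (X 0) (bb_X1 _ _) (bb_X0 _ _),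
    bb_comp (-X 1) (X 0 + X 1) _ _ (X 0 + X 1) (-X 1) (bb_X1 _ _) (bb_X0 _ _),
    bb_comp (-(X 0 + X 1)) (X 0) _ _ (X 0) (-(X 0 + X 1)) (bb_X1 _ _) (bb_X0 _ _),
    bb_comp (-X 0) (-X 1) _ _ (-X 1) (-X 0) (bb_X1 _ _) (bb_X0 _ _),
    bb_comp (X 1) (-(X 0 + X 1)) _ _ (-(X 0 + X 1)) (X 1) (bb_X1 _ _) (bb_X0 _ _),
    bb_comp (X 0 + X 1) (-X 0) _ _ (-X 0) (X 0 + X 1) (bb_X1 _ _) (bb_X0 _ _),
    bb_comp (X 1) (X 0) _ _ (X 0) (X 1) (bb_X1 _ _) (bb_X0 _ _),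
    bb_comp (X 0 + X 1) (-X 1) _ _ (-X 1) (X 0 + X 1) (bb_X1 _ _) (bb_X0 _ _),
    bb_comp (X 0) (-(X 0 + X 1)) _ _ (-(X 0 + X 1)) (X 0) (bb_X1 _ _) (bb_X0 _ _),
    bb_comp (-X 1) (-X 0) _ _ (-X 0) (-X 1) (bb_X1 _ _) (bb_X0 _ _),
    bb_comp (-(X 0 + X 1)) (X 1) _ _ (X 1) (-(X 0 + X 1)) (bb_X1 _ _) (bb_X0 _ _),
    bb_comp (-X 0) (X 0 + X 1) _ _ (X 0 + X 1) (-X 0) (bb_X1 _ _) (bb_X0 _ _)]
  ring

theorem bb_r (a b c : B2) (h : a + b = c) : bb a b (X 0 + X 1) = c := by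
  rw [map_add, bb_X0, bb_X1, h]
theorem bb_r' (a b c : B2) (h : -b = c) : bb a b (-X 1) = c := by
  rw [map_neg, bb_X1, h]

theorem Alt_r (Q : B2) : Alt (bb (X 0 + X 1) (-X 1) Q) = -Alt Q := by
  unfold Alt
  rw [bb_comp (X 0) (X 1) _ _ (X 0 + X 1) (-X 1) (bb_r _ _ _ (by ring)) (bb_r' _ _ _ (by ring)),
    bb_comp (-X 1) (X 0 + X 1) _ _ (X 0) (-(X 0 + X 1)) (bb_r _ _ _ (by ring)) (bb_r' _ _ _ (by ring)),
    bb_comp (-(X 0 + X 1)) (X 0) _ _ (-X 1) (-X 0) (bb_r _ _ _ (by ring)) (bb_r' _ _ _ (by ring)),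
    bb_comp (-X 0) (-X 1) _ _ (-(X 0 + X 1)) (X 1) (bb_r _ _ _ (by ring)) (bb_r' _ _ _ (by ring)),
    bb_comp (X 1) (-(X 0 + X 1)) _ _ (-X 0) (X 0 + X 1) (bb_r _ _ _ (by ring)) (bb_r' _ _ _ (by ring)),
    bb_comp (X 0 + X 1) (-X 0) _ _ (X 1) (X 0) (bb_r _ _ _ (by ring)) (bb_r' _ _ _ (by ring)),
    bb_comp (X 1) (X 0) _ _ (X 0 + X 1) (-X 0) (bb_r _ _ _ (by ring)) (bb_r' _ _ _ (by ring)),
    bb_comp (X 0 + X 1) (-X 1) _ _ (X 0) (X 1) (bb_r _ _ _ (by ring)) (bb_r' _ _ _ (by ring)),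
    bb_comp (X 0) (-(X 0 + X 1)) _ _ (-X 1) (X 0 + X 1) (bb_r _ _ _ (by ring)) (bb_r' _ _ _ (by ring)),
    bb_comp (-X 1) (-X 0) _ _ (-(X 0 + X 1)) (X 0) (bb_r _ _ _ (by ring)) (bb_r' _ _ _ (by ring)),
    bb_comp (-(X 0 + X 1)) (X 1) _ _ (-X 0) (-X 1) (bb_r _ _ _ (by ring)) (bb_r' _ _ _ (by ring)),
    bb_comp (-X 0) (X 0 + X 1) _ _ (X 1) (-(X 0 + X 1)) (bb_r _ _ _ (by ring)) (bb_r' _ _ _ (by ring))]
  ring

theorem Alt_even (p q : ℕ) (hp : Even p) (hq : Even q) :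
    Alt (X 0 ^ p * X 1 ^ q) = (-2 : ℚ) • bsym p q := by
  have h2 : ((-2 : ℚ) • bsym p q) = -2 * bsym p q := by
    rw [MvPolynomial.smul_eq_C_mul]
    congr 1
    rw [map_neg]
    rfl
  rw [h2]
  simp only [Alt, map_mul, map_pow, bb_X0, bb_X1, hp.neg_pow, hq.neg_pow, bsym]
  ring

theorem bsym_zero_left (q : ℕ) : bsym 0 q = 0 := by
  simp only [bsym, pow_zero]; ring

theorem bsym_zero_right (p : ℕ) : bsym p 0 = 0 := by
  simp only [bsym, pow_zero]; ring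

theorem Alt_even_mem (m p q : ℕ) (hp : Even p) (hq : Even q) (hm : p + q = m) :
    Alt (X 0 ^ p * X 1 ^ q) ∈ Submodule.span ℚ {b : B2 | ∃ p q : ℕ, Even p ∧ Even q ∧ 2 ≤ p ∧
      2 ≤ q ∧ p + q = m ∧ b = bsym p q} := by
  rw [Alt_even p q hp hq]
  apply Submodule.smul_mem
  by_cases h0 : p = 0
  · subst h0
    rw [bsym_zero_left]
    exact Submodule.zero_mem _
  by_cases h1 : q = 0
  · subst h1
    rw [bsym_zero_right]
    exact Submodule.zero_mem _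
  refine Submodule.subset_span ⟨p, q, hp, hq, ?_, ?_, hm, rfl⟩
  · obtain ⟨r, hr⟩ := hp; omega
  · obtain ⟨r, hr⟩ := hq; omega

theorem Alt_E (p q : ℕ) : Alt ((X 0 + X 1) ^ p * X 1 ^ q) =
    (-(-1 : ℚ) ^ q) • Alt (X 0 ^ p * X 1 ^ q) := by
  have h : ((X 0 + X 1) ^ p * X 1 ^ q : B2) =
      ((-1 : ℚ) ^ q) • bb (X 0 + X 1) (-X 1) (X 0 ^ p * X 1 ^ q) := by
    rw [map_mul, map_pow, map_pow, bb_X0, bb_X1, MvPolynomial.smul_eq_C_mul, map_pow, map_neg, C_1,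
      neg_pow (X 1 : B2) q]
    have : ((-1 : B2) ^ q) * (-1) ^ q = 1 := by rw [← mul_pow]; simp
    linear_combination (-(X 0 + X 1) ^ p * X 1 ^ q) * this
  rw [h, Alt_smul, Alt_r, smul_neg, neg_smul]

theorem Alt_mem (m : ℕ) (hm : Even m) (a : ℕ) : ∀ b : ℕ, 1 ≤ b → a + b = m →
    Alt (X 0 ^ a * X 1 ^ b) ∈ Submodule.span ℚ {b : B2 | ∃ p q : ℕ, Even p ∧ Even q ∧ 2 ≤ p ∧
      2 ≤ q ∧ p + q = m ∧ b = bsym p q} := by
  induction a using Nat.strong_induction_on with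
  | _ a ih =>
    intro b hb hab
    obtain ⟨c, rfl⟩ : ∃ c, b = c + 1 := ⟨b - 1, by omega⟩
    have h2 : (X 0 + X 1 : B2) ^ (a + 1) = X 0 ^ (a + 1) + ((a : ℚ) + 1) • (X 0 ^ a * X 1) +
        ∑ n ∈ Finset.range a, ((a + 1).choose n : ℚ) • (X 0 ^ n * X 1 ^ (a + 1 - n)) := by
      rw [add_pow, Finset.sum_range_succ, Finset.sum_range_succ]
      have h3 : ∀ n ∈ Finset.range a, (X 0 : B2) ^ n * X 1 ^ (a + 1 - n) * ((a + 1).choose n : B2) =
          ((a + 1).choose n : ℚ) • (X 0 ^ n * X 1 ^ (a + 1 - n)) := by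
        intro n hn
        rw [MvPolynomial.smul_eq_C_mul, map_natCast]
        ring
      rw [Finset.sum_congr rfl h3]
      have h4 : (a + 1).choose a = a + 1 := by
        rw [Nat.choose_succ_self_right]
      rw [h4, Nat.sub_self, pow_zero, Nat.choose_self]
      have h5 : a + 1 - a = 1 := by omega
      rw [h5, MvPolynomial.smul_eq_C_mul, C_add, C_1, map_natCast]
      push_cast
      ring
    have h6 : ((X 0 + X 1) ^ (a + 1) * X 1 ^ c : B2) = X 0 ^ (a + 1) * X 1 ^ c +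
        ((a : ℚ) + 1) • (X 0 ^ a * X 1 ^ (c + 1)) +
        ∑ n ∈ Finset.range a, ((a + 1).choose n : ℚ) • (X 0 ^ n * X 1 ^ (a + 1 - n + c)) := by
      rw [h2, add_mul, add_mul, Finset.sum_mul, smul_mul_assoc]
      congr 1
      · congr 2
        ring
      · refine Finset.sum_congr rfl fun n hn => ?_
        rw [smul_mul_assoc]
        congr 1
        ring
    have h7 := congrArg Alt h6
    rw [Alt_E, Alt_add, Alt_add, Alt_smul, Alt_sum] at h7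
    have h8 : ((a : ℚ) + 1) • Alt (X 0 ^ a * X 1 ^ (c + 1)) =
        (-(-1 : ℚ) ^ c - 1) • Alt (X 0 ^ (a + 1) * X 1 ^ c) -
        ∑ n ∈ Finset.range a, Alt (((a + 1).choose n : ℚ) • (X 0 ^ n * X 1 ^ (a + 1 - n + c))) := by
      rw [sub_smul, one_smul, h7]
      abel
    have h9 : ((a : ℚ) + 1) • Alt (X 0 ^ a * X 1 ^ (c + 1)) ∈
        Submodule.span ℚ {b : B2 | ∃ p q : ℕ, Even p ∧ Even q ∧ 2 ≤ p ∧
        2 ≤ q ∧ p + q = m ∧ b = bsym p q} := by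
      rw [h8]
      apply Submodule.sub_mem
      · rcases Nat.even_or_odd c with hc | hc
        · apply Submodule.smul_mem
          refine Alt_even_mem m (a + 1) c ?_ hc (by omega)
          have : a + 1 + c = m := by omega
          rw [← this, Nat.even_add] at hm
          exact hm.2 hc
        · rw [hc.neg_one_pow]
          simp
      · apply Submodule.sum_mem
        intro n hn
        rw [Finset.mem_range] at hn
        rw [Alt_smul]
        apply Submodule.smul_mem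
        exact ih n hn _ (by omega) (by omega)
    have h10 := Submodule.smul_mem _ (((a : ℚ) + 1)⁻¹) h9
    rwa [smul_smul, inv_mul_cancel₀ (by positivity), one_smul] at h10

theorem Alt_mem' (m : ℕ) (hm : Even m) (h1 : 1 ≤ m) (a b : ℕ) (hab : a + b = m) :
    Alt (X 0 ^ a * X 1 ^ b) ∈ Submodule.span ℚ {b : B2 | ∃ p q : ℕ, Even p ∧ Even q ∧ 2 ≤ p ∧
      2 ≤ q ∧ p + q = m ∧ b = bsym p q} := by
  rcases Nat.eq_zero_or_pos b with rfl | hb
  · have h : (X 0 ^ a * X 1 ^ 0 : B2) = bb (X 1) (X 0) (X 0 ^ 0 * X 1 ^ a) := by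
      rw [map_mul, map_pow, map_pow, bb_X0, bb_X1]
      ring
    rw [h, Alt_s]
    apply Submodule.neg_mem
    exact Alt_mem m hm 0 a (by omega) (by omega)
  · exact Alt_mem m hm a b hb hab

theorem t_V2Span : V2Span := by
  intro m hm h1 g hg
  obtain ⟨hhom, hs, hr⟩ := hg
  -- `g` is alternating
  have S : ∀ a b : B2, bb b a g = -bb a b g := by
    intro a b
    have := congrArg (bb a b) hs
    rwa [bb_comp a b _ _ b a (bb_X1 _ _) (bb_X0 _ _), map_neg] at this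
  have Rr : ∀ a b c d : B2, a + b = c → -b = d → bb c d g = -bb a b g := by
    intro a b c d h h'
    have := congrArg (bb a b) hr
    rwa [bb_comp a b _ _ c d (bb_r _ _ _ h) (bb_r' _ _ _ h'), map_neg] at this
  have e0 : bb (X 0) (X 1) g = g := by
    have : bb (X 0) (X 1) = AlgHom.id ℚ B2 := by
      apply MvPolynomial.algHom_ext
      intro i
      fin_cases i
      · exact bb_X0 _ _
      · exact bb_X1 _ _
    rw [this]; rfl
  have e1 : bb (X 1) (X 0) g = -g := by rw [S (X 0) (X 1), e0]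
  have e2 : bb (X 0 + X 1) (-X 0) g = g := by
    rw [Rr (X 1) (X 0) _ _ (by ring) rfl, e1, neg_neg]
  have e3 : bb (-X 0) (X 0 + X 1) g = -g := by rw [S (X 0 + X 1) (-X 0), e2]
  have e4 : bb (X 1) (-(X 0 + X 1)) g = g := by
    rw [Rr (-X 0) (X 0 + X 1) _ _ (by ring) rfl, e3, neg_neg]
  have e5 : bb (-(X 0 + X 1)) (X 1) g = -g := by rw [S (X 1) (-(X 0 + X 1)), e4]
  have e6 : bb (-X 0) (-X 1) g = g := by
    rw [Rr (-(X 0 + X 1)) (X 1) _ _ (by ring) rfl, e5, neg_neg]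
  have e7 : bb (-X 1) (-X 0) g = -g := by rw [S (-X 0) (-X 1), e6]
  have e8 : bb (-(X 0 + X 1)) (X 0) g = g := by
    rw [Rr (-X 1) (-X 0) _ _ (by ring) (by ring), e7, neg_neg]
  have e9 : bb (X 0) (-(X 0 + X 1)) g = -g := by rw [S (-(X 0 + X 1)) (X 0), e8]
  have e10 : bb (-X 1) (X 0 + X 1) g = g := by
    rw [Rr (X 0) (-(X 0 + X 1)) _ _ (by ring) (by ring), e9, neg_neg]
  have e11 : bb (X 0 + X 1) (-X 1) g = -g := by rw [S (-X 1) (X 0 + X 1), e10]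
  have hA : Alt g = (12 : ℚ) • g := by
    unfold Alt
    rw [e0, e1, e2, e3, e4, e5, e6, e7, e8, e9, e10, e11, MvPolynomial.smul_eq_C_mul]
    have : (C (12 : ℚ) : B2) = 12 := rfl
    rw [this]
    ring
  have hmem : Alt g ∈ Submodule.span ℚ {b : B2 | ∃ p q : ℕ, Even p ∧ Even q ∧ 2 ≤ p ∧
      2 ≤ q ∧ p + q = m ∧ b = bsym p q} := by
    rw [g.as_sum, Alt_sum]
    apply Submodule.sum_mem
    intro u hu
    have hmon : (monomial u (coeff u g) : B2) = (coeff u g) • (X 0 ^ (u 0) * X 1 ^ (u 1)) := by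
      rw [monomial_eq, Finsupp.prod_fintype _ _ (fun i => by simp), Fin.prod_univ_two,
        MvPolynomial.smul_eq_C_mul]
    rw [hmon, Alt_smul]
    apply Submodule.smul_mem
    refine Alt_mem' m hm h1 _ _ ?_
    have hd := hhom (mem_support_iff.1 hu)
    rw [← hd]
    simp [Finsupp.weight_apply, Finsupp.sum_fintype]
  rw [hA] at hmem
  have h12 := Submodule.smul_mem _ ((12 : ℚ)⁻¹) hmem
  rwa [smul_smul, inv_mul_cancel₀ (by norm_num), one_smul] at h12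
end Pool.Agent.K3h36.GEN.GTwo
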